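import Pool.Agent.Helper24.KE.Fin

/-!
# Error terms in the numerical formulas of Beilinson and Bloch

Let `k` be a number field. For a separated scheme `X` of finite type over `k` let `W(X)` be its weight
complex with compact supports (Gillet, Soulé), a bounded complex of Chow motives, well defined up to
homotopy. The conjecture of Beilinson and Bloch for a smooth projective variety `X` in codimension `i`
(`Conj i X`) says that `L(H^(2i-1)(X), s)` has a meromorphic continuation along the real axis to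
`s = i` and that its order at `s = i` is the dimension of `CH^i(X)_0`. For an arbitrary `X` suppose
that the spaces `H^j(CH^n(W(X))_0)` have finite dimension, and that the alternating product of the
`L`-functions of the terms of `W(X)(n)` has a meromorphic continuation along `[0, ∞)`. The error
`c` of the numerical formula with index `n` (`Err n X c`) is the difference of
`∑ (-1)^j dim H^j(CH^n(W(X))_0)` and the order of the continuation. The formula is true if the error is
`0`; for smooth projective `X` this is the conjecture in codimension `n`.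

We look at the principal open subsets `D(F) : F ≠ 0` of the affine spaces over `ℚ`, for polynomials
`F ∈ ℤ[x_1, …, x_r]`. Let `‖F‖` be the sum of the absolute values of the coefficients, and let
`size F = deg F + log ‖F‖ / log (log ‖F‖ + 3)`.

**Theorem.** (1) The error is unique, and it is `0` if and only if the numerical formula is true.

(2) Let `i`, `d` and `κ ≥ 1` be given. If the errors with index `i` of the open sets `D(F)`,
`F ∈ ℤ[x_1, …, x_(d+κ)]`, exist and are `o((size F)^κ)`, then the conjecture of Beilinson and Bloch in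
codimension `i` is true for all smooth projective varieties of dimension at most `d` over all number
fields. For `κ = 1` this is an equivalence. The same over one number field `k`, with the degree instead of
the size, and `F ∈ k[x_1, …, x_(d+1)]`.

(3) One-sided bounds (errors at most `o((size F)^κ)`, or at least `-o((size F)^κ)`) for the polynomials
in `d + κ` and in `d + κ + 1` variables are enough in (2).

(4) For every `i` the conjecture in codimension `i` for all smooth projective varieties over all number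
fields is equivalent to the existence of one-sided bounds `o((size F)^(r - s))` for all `s`, all
`r ≥ r₀(s)` and all `F ∈ ℤ[x_1, …, x_r]`, and this for each of the two sides.
-/

set_option autoImplicit false
set_option linter.checkUnivs false

open CategoryTheory Limits AlgebraicGeometry Pool.Agent.Y116.UV Pool.Agent.Q282.UM
  Pool.Agent.Q282.UK Pool.Agent.Helper24.KD

open Pool.Agent.Helper24.KZ hiding fL fL_mult ob_iff holds_iff euler_germ fL_zpow

universe v u

namespace Pool.Agent.Results.MP_0b9e0b_ag.ErrorTerms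

/-- The principal open subset `D(F) : F ≠ 0` of the affine space over `k`. -/
noncomputable def princ {k : Type} [Field k] {r : ℕ} (F : MvPolynomial (Fin r) k) : Sch k :=
  aff k (Localization.Away F)

/-- The sum of the absolute values of the coefficients. -/
def norm {r : ℕ} (F : MvPolynomial (Fin r) ℤ) : ℕ := ∑ s ∈ F.support, (F.coeff s).natAbs

/-- The size `deg F + log ‖F‖ / log (log ‖F‖ + 3)`. -/
noncomputable def size {r : ℕ} (F : MvPolynomial (Fin r) ℤ) : ℝ :=
  F.totalDegree + Real.log (norm F) / Real.log (Real.log (norm F) + 3)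

/-- The polynomial with rational coefficients. -/
noncomputable def rat {r : ℕ} (F : MvPolynomial (Fin r) ℤ) : MvPolynomial (Fin r) ℚ :=
  MvPolynomial.map (algebraMap ℤ ℚ) F

/-- The category `C` of Chow motives over `k`, with the motives `h(X)`, the Tate twists, the weight
complexes `W(X)`, the groups of homologically trivial cycles and the Euler factors (`MotivesL`). -/
structure Mot (k : Type) [Field k] where
  C : Type u
  [cat : Category.{v} C]
  [pre : Preadditive C]
  [zero : HasZeroObject C]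
  [bin : HasBinaryBiproducts C]
  [fin : HasFiniteBiproducts C]
  D : MotivesL k C

attribute [instance] Mot.cat Mot.pre Mot.zero Mot.bin Mot.fin

section

variable {k : Type} [Field k] (M : Mot.{v, u} k)

/-- The motive `h(X)(i)`. -/
noncomputable def Mot.motive (i : ℤ) (X : Sch k) : M.C := (M.D.tw i).obj (M.D.h X)

/-- The conjecture of Beilinson and Bloch for the smooth projective scheme `X` in codimension `i`, with
the meromorphic continuation: `L(H^(2i-1)(X), s + i)` has a meromorphic continuation to a neighbourhood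
of `[0, ∞)`, and its order at `s = 0` is the dimension of `CH^i(X)_0`, which is finite. -/
def Conj (i : ℤ) (X : Sch k) : Prop := BB M.D (M.motive i X)

/-- The numerical formula for the twist `W(X)(n)` of the weight complex of `X`. -/
def Numerical (n : ℤ) (X : Sch k) : Prop := Formula M.D (onHK (M.D.tw n) (M.D.W X))

/-- The numerical formula for the twist `W(X)(n)` of the weight complex of `X` with the error `c`: the
spaces `H^j(cyc W(X)(n))` have finite dimension, almost all are zero, the alternating product of the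
`L`-functions has a meromorphic continuation, and `c` is the difference of the Euler characteristic
`∑ (-1)^j dim H^j(cyc W(X)(n))` and the order of the continuation at `0`. -/
def Err (n : ℤ) (X : Sch k) (c : ℤ) : Prop :=
  Pool.Agent.Helper24.KE.FormulaC M.D (onHK (M.D.tw n) (M.D.W X)) c

end

/-- The known properties of the Chow motives over all number fields.

* `euler`: the Euler factors of sums, and the convergence of the Euler products;
* `weight`: the weight complexes;
* `out`: `CH^n(X)_0 = 0` and `H^(2n-1)(X) = 0` for `n ≤ 0` and for `n > dim X`;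
* `restrict`: a smooth projective scheme over `k` is a smooth projective scheme over `ℚ`, with the same
  cycles and the same `L`-functions. -/
structure Known (M : ∀ (k : Type) [Field k] [NumberField k], Mot.{v, u} k) : Prop where
  euler : ∀ (k : Type) [Field k] [NumberField k], IsEuler (M k).D
  weight : ∀ (k : Type) [Field k] [NumberField k], IsWeightComplex (M k).D.toWeights
  out : ∀ (k : Type) [Field k] [NumberField k] (X : Sch k), IsSmoothProjective X →
    ∀ N : ℕ, topologicalKrullDim X.left ≤ N → ∀ n : ℤ, (n ≤ 0 ∨ N < n) →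
      IsZero ((M k).D.cyc.obj ((M k).motive n X)) ∧ ∀ v, (M k).D.P v ((M k).motive n X) = 1
  restrict : ∀ (k : Type) [Field k] [NumberField k] (X : Sch k), IsSmoothProjective X →
    ∃ X' : Sch ℚ, IsSmoothProjective X' ∧
      topologicalKrullDim X'.left = topologicalKrullDim X.left ∧ ∀ n : ℤ,
        Nonempty ((M k).D.cyc.obj ((M k).motive n X) ≃ₗ[ℚ] (M ℚ).D.cyc.obj ((M ℚ).motive n X')) ∧
        ∃ σ : ℝ, ∀ s : ℂ, σ < s.re →
          (M k).D.L ((M k).motive n X) s = (M ℚ).D.L ((M ℚ).motive n X') s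


/-- The errors `c` with index `n` of the open sets `D(F)`, `F ∈ ℤ[x_1, …, x_r]`, satisfy
`R c ≤ o((size F)^κ)`, where `R c` is `|c|`, `c` or `-c`. -/
def Bound (M : Mot.{v, u} ℚ) (R : ℤ → ℤ) (n : ℤ) (r κ : ℕ) : Prop :=
  ∀ ε : ℝ, 0 < ε → ∃ B : ℝ, ∀ F : MvPolynomial (Fin r) ℤ, ∃ c : ℤ, Err M n (princ (rat F)) c ∧
    (R c : ℝ) ≤ ε * size F ^ κ + B

/-- The errors `c` with index `n` of the open sets `D(F)`, `F ∈ k[x_1, …, x_r]`, are
`o(deg F)`. -/
def DegBound {k : Type} [Field k] (M : Mot.{v, u} k) (n : ℤ) (r : ℕ) : Prop :=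
  ∀ ε : ℝ, 0 < ε → ∃ B : ℝ, ∀ F : MvPolynomial (Fin r) k, ∃ c : ℤ, Err M n (princ F) c ∧
    (|c| : ℝ) ≤ ε * F.totalDegree + B

/-- The conjecture of Beilinson and Bloch in codimension `i` for the smooth projective varieties of
dimension at most `d` over all number fields. -/
def ConjDim (M : ∀ (k : Type) [Field k] [NumberField k], Mot.{v, u} k) (i : ℤ) (d : ℕ) : Prop :=
  ∀ (k : Type) [Field k] [NumberField k] (X : Sch k), IsSmoothProjective X →
    topologicalKrullDim X.left ≤ d → Conj (M k) i X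

/-- The conjecture of Beilinson and Bloch in codimension `i` for all smooth projective varieties over
all number fields. -/
def ConjAll (M : ∀ (k : Type) [Field k] [NumberField k], Mot.{v, u} k) (i : ℤ) : Prop :=
  ∀ (k : Type) [Field k] [NumberField k] (X : Sch k), IsSmoothProjective X → Conj (M k) i X

section

variable {M : ∀ (k : Type) [Field k] [NumberField k], Mot.{v, u} k} (hM : Known M)

include hM

variable (k : Type) [Field k] [NumberField k]

lemma out_ob (X : Sch k) (hX : IsSmoothProjective X) {N : ℕ}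
    (hN : topologicalKrullDim X.left ≤ N) (n : ℤ) (hn : n ≤ 0 ∨ N < n) :
    Ob (M k).D.cyc (fL (hM.euler k)) Gam (((M k).D.tw n).obj ((M k).D.h X)) := by
  rw [ob_iff]
  obtain ⟨h1, h2⟩ := hM.out k X hX N hN n hn
  have h3 : Subsingleton ((M k).D.cyc.obj ((M k).motive n X)) :=
    ModuleCat.subsingleton_of_isZero h1
  refine ⟨fun _ => 1, ⟨⟨0, fun s _ => ?_⟩, fun x _ => MeromorphicAt.const 1 _⟩, ?_, ?_⟩
  · have h4 : ∀ v, (M k).D.P v (((M k).D.tw n).obj ((M k).D.h X)) = 1 := h2
    unfold MotivesL.L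
    simp only [h4, Polynomial.eval_one, inv_one, tprod_one]
  · have : Subsingleton ((M k).D.cyc.obj (((M k).D.tw n).obj ((M k).D.h X))) := h3
    infer_instance
  · have : Subsingleton ((M k).D.cyc.obj (((M k).D.tw n).obj ((M k).D.h X))) := h3
    rw [meromorphicOrderAt_const, Module.finrank_zero_of_subsingleton]
    simp

lemma zero_ob (X : Sch k) (hX : IsSmoothProjective X)
    (hN : topologicalKrullDim X.left ≤ (0 : ℕ)) (n : ℤ) :
    Ob (M k).D.cyc (fL (hM.euler k)) Gam (((M k).D.tw n).obj ((M k).D.h X)) :=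
  out_ob hM k X hX hN n (by omega)

lemma numerical_iff (n : ℤ) (X : Sch k) : Numerical (M k) n X ↔
    At (M k).D.cyc (fL (hM.euler k)) Gam (M k).D.toWeights n X :=
  (holds_iff (hM.euler k) _).symm

lemma conj_iff (n : ℤ) (X : Sch k) : Conj (M k) n X ↔
    Ob (M k).D.cyc (fL (hM.euler k)) Gam (((M k).D.tw n).obj ((M k).D.h X)) :=
  (ob_iff (hM.euler k) _).symm


lemma err_iff (n : ℤ) (X : Sch k) (c : ℤ) : Err (M k) n X c ↔
    Pool.Agent.Helper24.KE.AtC (M k).D.cyc (fL (hM.euler k)) Gam (M k).D.toWeights n X c :=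
  (Pool.Agent.Helper24.KE.holdsC_iff (hM.euler k) _ _).symm

/-- The errors are additive. -/
lemma dfc (n : ℤ) : Pool.Agent.Helper24.KE.Dfc True fun X : Sch k =>
    Pool.Agent.Helper24.KE.AtC (M k).D.cyc (fL (hM.euler k)) Gam (M k).D.toWeights n X :=
  Pool.Agent.Helper24.KE.atC_dfc (fL_mult (hM.euler k)) (hM.weight k)
    Pool.Agent.Helper24.KE.gam_uniq n

lemma space (n : ℤ) (m : ℕ) : Pool.Agent.Helper24.KE.AtC (M k).D.cyc (fL (hM.euler k)) Gam
    (M k).D.toWeights n (aff k (MvPolynomial (Fin m) k)) 0 :=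
  Pool.Agent.Helper24.KE.space_zero (fL_mult (hM.euler k)) (hM.weight k) (zero_ob hM k) n m

/-- From schemes to the conjecture. -/
lemma conj_of_zero {i : ℤ} {X : Sch k} (hX : IsSmoothProjective X)
    (h : Pool.Agent.Helper24.KE.AtC (M k).D.cyc (fL (hM.euler k)) Gam (M k).D.toWeights i X 0) :
    Conj (M k) i X :=
  (conj_iff hM k i X).mpr (to_ob (fL_mult (hM.euler k)) (hM.weight k) hX
    (Pool.Agent.Helper24.KE.atC_zero.mp h))

/-- The exact formula for the open sets. -/
lemma exact_princ {i : ℤ} {d : ℕ} (h : ∀ X : Sch k, IsSmoothProjective X →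
    topologicalKrullDim X.left ≤ d → Conj (M k) i X) (F : MvPolynomial (Fin (d + 1)) k) :
    Err (M k) i (princ F) 0 := by
  rw [err_iff hM k, Pool.Agent.Helper24.KE.atC_zero]
  exact Pool.Agent.Helper24.KE.exact_U (fL_mult (hM.euler k)) (hM.weight k) (zero_ob hM k)
    (fun Y hY hd => (conj_iff hM k i Y).mp (h Y hY hd)) F

/-- The restriction of scalars. -/
lemma restrict_conj (X : Sch k) (hX : IsSmoothProjective X) : ∃ X' : Sch ℚ,
    IsSmoothProjective X' ∧ topologicalKrullDim X'.left = topologicalKrullDim X.left ∧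
      ∀ i : ℤ, (Conj (M ℚ) i X' → Conj (M k) i X) := by
  obtain ⟨X', h1, h2, h3⟩ := hM.restrict k X hX
  refine ⟨X', h1, h2, fun i => ?_⟩
  obtain ⟨⟨e⟩, σ, hσ⟩ := h3 i
  rintro ⟨F, ⟨⟨τ, h4⟩, h5⟩, h6, h7⟩
  refine ⟨F, ⟨⟨max σ τ, fun s hs => ?_⟩, h5⟩, Module.Finite.equiv e.symm, ?_⟩
  · rw [h4 s (lt_of_le_of_lt (le_max_right _ _) hs), hσ s (lt_of_le_of_lt (le_max_left _ _) hs)]
  · rw [h7, e.finrank_eq]


/-- Over `ℚ` and over all number fields. -/
lemma all_of_rat {i : ℤ} {d : ℕ} (h : ∀ X : Sch ℚ, IsSmoothProjective X →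
    topologicalKrullDim X.left ≤ d → Conj (M ℚ) i X) : ConjDim M i d := by
  intro k _ _ X hX hd
  obtain ⟨X', hX', e1, e2⟩ := restrict_conj hM k X hX
  exact e2 i (h X' hX' (e1 ▸ hd))

/-- Two-sided bounds for rational coefficients. -/
lemma to_both {i : ℤ} {r κ : ℕ} (h : Bound (M ℚ) abs i r κ) :
    Pool.Agent.Helper24.KE.Both Pool.Agent.Helper24.KE.szh (fun X : Sch ℚ =>
      Pool.Agent.Helper24.KE.AtC (M ℚ).D.cyc (fL (hM.euler ℚ)) Gam (M ℚ).D.toWeights i X) r κ := by
  intro ε hε
  obtain ⟨B, hB⟩ := h ε hε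
  refine ⟨B, Pool.Agent.Helper24.KE.of_int (dfc hM ℚ i) (R := fun c x => |(c : ℝ)| ≤ x)
    (fun c x y hxy hx => hx.trans hxy) hε fun F => ?_⟩
  obtain ⟨c, h1, h2⟩ := hB F
  refine ⟨c, (err_iff hM ℚ i _ c).mp h1, ?_⟩
  rw [Int.cast_abs] at h2
  exact h2

/-- Upper bounds for rational coefficients. -/
lemma to_upper {i : ℤ} {r κ : ℕ} (h : Bound (M ℚ) id i r κ) :
    Pool.Agent.Helper24.KE.Upper Pool.Agent.Helper24.KE.szh (fun X : Sch ℚ =>
      Pool.Agent.Helper24.KE.AtC (M ℚ).D.cyc (fL (hM.euler ℚ)) Gam (M ℚ).D.toWeights i X) r κ := by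
  intro ε hε
  obtain ⟨B, hB⟩ := h ε hε
  refine ⟨B, Pool.Agent.Helper24.KE.of_int (dfc hM ℚ i) (R := fun c x => (c : ℝ) ≤ x)
    (fun c x y hxy hx => hx.trans hxy) hε fun F => ?_⟩
  obtain ⟨c, h1, h2⟩ := hB F
  exact ⟨c, (err_iff hM ℚ i _ c).mp h1, h2⟩

/-- Lower bounds for rational coefficients. -/
lemma to_lower {i : ℤ} {r κ : ℕ} (h : Bound (M ℚ) Neg.neg i r κ) :
    Pool.Agent.Helper24.KE.Upper Pool.Agent.Helper24.KE.szh (fun (X : Sch ℚ) c =>
      Pool.Agent.Helper24.KE.AtC (M ℚ).D.cyc (fL (hM.euler ℚ)) Gam (M ℚ).D.toWeights i X (-c))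
        r κ := by
  intro ε hε
  obtain ⟨B, hB⟩ := h ε hε
  refine ⟨B, Pool.Agent.Helper24.KE.of_int (dfc hM ℚ i).neg (R := fun c x => (c : ℝ) ≤ x)
    (fun c x y hxy hx => hx.trans hxy) hε fun F => ?_⟩
  obtain ⟨c, h1, h2⟩ := hB F
  refine ⟨-c, ?_, h2⟩
  rw [neg_neg]
  exact (err_iff hM ℚ i _ c).mp h1

lemma space_neg (n : ℤ) (m : ℕ) : Pool.Agent.Helper24.KE.AtC (M ℚ).D.cyc (fL (hM.euler ℚ)) Gam
    (M ℚ).D.toWeights n (aff ℚ (MvPolynomial (Fin m) ℚ)) (-0) := by
  rw [neg_zero]
  exact space hM ℚ n m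

/-- Two-sided bounds. -/
theorem of_abs {i : ℤ} {d κ : ℕ} (h : Bound (M ℚ) abs i (d + (κ + 1)) (κ + 1)) :
    ConjDim M i d :=
  all_of_rat hM fun X hX hd => conj_of_zero hM ℚ hX
    (Pool.Agent.Helper24.KE.zero_of_both (dfc hM ℚ i) (space hM ℚ i)
      Pool.Agent.Helper24.KE.size_ht (to_both hM h) X (ft_projective hX) hd)

/-- Upper bounds. -/
theorem of_id {i : ℤ} {d κ : ℕ} (h : Bound (M ℚ) id i (d + (κ + 1)) (κ + 1))
    (h' : Bound (M ℚ) id i (d + (κ + 1) + 1) (κ + 1)) : ConjDim M i d :=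
  all_of_rat hM fun X hX hd => conj_of_zero hM ℚ hX
    (Pool.Agent.Helper24.KE.zero_of_upper (dfc hM ℚ i) (space hM ℚ i)
      Pool.Agent.Helper24.KE.size_ht (to_upper hM h) (to_upper hM h') X (ft_projective hX) hd)

/-- Lower bounds. -/
theorem of_neg {i : ℤ} {d κ : ℕ} (h : Bound (M ℚ) Neg.neg i (d + (κ + 1)) (κ + 1))
    (h' : Bound (M ℚ) Neg.neg i (d + (κ + 1) + 1) (κ + 1)) : ConjDim M i d :=
  all_of_rat hM fun X hX hd => conj_of_zero hM ℚ hX (by
    have h1 := Pool.Agent.Helper24.KE.zero_of_upper (dfc hM ℚ i).neg (space_neg hM i)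
      Pool.Agent.Helper24.KE.size_ht (to_lower hM h) (to_lower hM h') X (ft_projective hX) hd
    rwa [neg_zero] at h1)

/-- From the conjecture to the bounds. -/
lemma to_bound {i : ℤ} {d : ℕ} (h : ConjDim M i d) {R : ℤ → ℤ} (hR : R 0 = 0) (κ : ℕ) :
    Bound (M ℚ) R i (d + 1) κ := by
  intro ε hε
  refine ⟨0, fun F => ⟨0, exact_princ hM ℚ (h ℚ) _, ?_⟩⟩
  rw [hR, Int.cast_zero, add_zero]
  have h1 : 0 ≤ size F := add_nonneg (Nat.cast_nonneg _)
    (Pool.Agent.Helper24.KE.ell_nonneg (Real.log_natCast_nonneg (norm F)))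
  positivity

/-- One number field. -/
theorem one_field (i : ℤ) (d : ℕ) :
    (∀ X : Sch k, IsSmoothProjective X → topologicalKrullDim X.left ≤ d → Conj (M k) i X) ↔
      DegBound (M k) i (d + 1) := by
  constructor
  · intro h ε hε
    refine ⟨0, fun F => ⟨0, exact_princ hM k h F, ?_⟩⟩
    rw [Int.cast_zero, abs_zero, add_zero]
    positivity
  · intro h X hX hd
    refine conj_of_zero hM k hX (Pool.Agent.Helper24.KE.zero_of_both (m := d) (κ := 0) (dfc hM k i)
      (space hM k i) Pool.Agent.Helper24.KE.size_deg ?_ X (ft_projective hX) hd)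
    intro ε hε
    obtain ⟨B, hB⟩ := h ε hε
    refine ⟨B, fun F => ?_⟩
    obtain ⟨c, h1, h2⟩ := hB F
    refine ⟨c, (err_iff hM k i _ c).mp h1, ?_⟩
    change |(c : ℝ)| ≤ ε * (F.totalDegree : ℝ) ^ 1 + B
    rw [pow_one]
    exact h2

/-- All schemes. -/
lemma all_schemes {i : ℤ} (h : ∀ (m : ℕ) (X : Sch k), FT True X →
    topologicalKrullDim X.left ≤ m → Pool.Agent.Helper24.KE.AtC (M k).D.cyc (fL (hM.euler k)) Gam
      (M k).D.toWeights i X 0) {X : Sch k} (hX : IsSmoothProjective X) : Conj (M k) i X := by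
  refine conj_of_zero hM k hX ?_
  refine of_affine' (P := fun X => Pool.Agent.Helper24.KE.AtC (M k).D.cyc (fL (hM.euler k)) Gam
    (M k).D.toWeights i X 0) ((dfc hM k i).cls.iso) ((dfc hM k i).cls.total)
      (fun B _ _ _ => ?_) X (ft_projective hX)
  obtain ⟨N, hN⟩ := exists_dim_aff (k := k) B
  exact h N _ (ft_aff True) hN

end

/-- The conjecture in codimension `i`; upper bounds for the errors; lower bounds for the errors. -/
def Forms (M : ∀ (k : Type) [Field k] [NumberField k], Mot.{v, u} k) (i : ℤ) : List Prop :=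
  [ConjAll M i,
    ∀ s : ℕ, ∃ r₀ : ℕ, ∀ r, r₀ ≤ r → Bound (M ℚ) id i r (r - s),
    ∀ s : ℕ, ∃ r₀ : ℕ, ∀ r, r₀ ≤ r → Bound (M ℚ) Neg.neg i r (r - s)]

theorem forms_tfae {M : ∀ (k : Type) [Field k] [NumberField k], Mot.{v, u} k} (hM : Known M)
    (i : ℤ) : (Forms M i).TFAE := by
  unfold Forms
  have hres : (∀ X : Sch ℚ, IsSmoothProjective X → Conj (M ℚ) i X) → ConjAll M i := by
    intro h k _ _ X hX
    obtain ⟨X', h1, _, h3⟩ := restrict_conj hM k X hX
    exact h3 i (h X' h1)
  have hto : ConjAll M i → ∀ R : ℤ → ℤ, R 0 = 0 →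
      ∀ s : ℕ, ∃ r₀ : ℕ, ∀ r, r₀ ≤ r → Bound (M ℚ) R i r (r - s) := by
    intro h R hR s
    refine ⟨1, fun r hr => ?_⟩
    obtain ⟨d, rfl⟩ : ∃ d, r = d + 1 := ⟨r - 1, by omega⟩
    exact to_bound hM (fun k _ _ X hX _ => h k X hX) hR _
  tfae_have 1 → 2 := fun h => hto h id rfl
  tfae_have 1 → 3 := fun h => hto h Neg.neg neg_zero
  tfae_have 2 → 1 := fun h => hres fun X hX => all_schemes hM ℚ (fun m X hX hm =>
    Pool.Agent.Helper24.KE.zero_of_all (dfc hM ℚ i) (space hM ℚ i)
      Pool.Agent.Helper24.KE.size_ht (fun s => by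
        obtain ⟨r₀, hr⟩ := h s
        exact ⟨r₀, fun r h1 => to_upper hM (hr r h1)⟩) m X hX hm) hX
  tfae_have 3 → 1 := fun h => hres fun X hX => all_schemes hM ℚ (fun m X hX hm => by
    have h1 := Pool.Agent.Helper24.KE.zero_of_all (dfc hM ℚ i).neg (space_neg hM i)
      Pool.Agent.Helper24.KE.size_ht (fun s => by
        obtain ⟨r₀, hr⟩ := h s
        exact ⟨r₀, fun r h1 => to_lower hM (hr r h1)⟩) m X hX hm
    rwa [neg_zero] at h1) hX
  tfae_finish

/-- **Error terms in the numerical formulas of Beilinson and Bloch.** See the explanations above. -/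
theorem result (M : ∀ (k : Type) [Field k] [NumberField k], Mot.{v, u} k) (hM : Known M) :
    -- (1) the error is unique, and it is zero if and only if the numerical formula is true
    (∀ (k : Type) [Field k] [NumberField k] (n : ℤ) (X : Sch k),
      (∀ c c' : ℤ, Err (M k) n X c → Err (M k) n X c' → c = c') ∧
        (Err (M k) n X 0 ↔ Numerical (M k) n X)) ∧
    -- (2) two-sided bounds
    (∀ (i : ℤ) (d κ : ℕ), 1 ≤ κ → Bound (M ℚ) abs i (d + κ) κ → ConjDim M i d) ∧
    (∀ (i : ℤ) (d : ℕ), (ConjDim M i d ↔ Bound (M ℚ) abs i (d + 1) 1) ∧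
      ∀ (k : Type) [Field k] [NumberField k],
        ((∀ X : Sch k, IsSmoothProjective X → topologicalKrullDim X.left ≤ d → Conj (M k) i X) ↔
          DegBound (M k) i (d + 1))) ∧
    -- (3) one-sided bounds
    (∀ (i : ℤ) (d κ : ℕ), 1 ≤ κ → ∀ R : ℤ → ℤ, (R = id ∨ R = Neg.neg) →
      Bound (M ℚ) R i (d + κ) κ → Bound (M ℚ) R i (d + κ + 1) κ → ConjDim M i d) ∧
    -- (4) the conjecture in codimension `i`
    (∀ i : ℤ, (Forms M i).TFAE) := by
  refine ⟨fun k _ _ n X => ⟨fun c c' h1 h2 => ?_, ?_⟩, ?_, fun i d => ⟨⟨?_, ?_⟩, fun k _ _ =>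
    one_field hM k i d⟩, ?_, forms_tfae hM⟩
  · exact (dfc hM k n).uniq ((err_iff hM k n X c).mp h1) ((err_iff hM k n X c').mp h2)
  · exact Pool.Agent.Helper24.KE.formulaC_zero _ _
  · intro i d κ hκ h
    obtain ⟨κ, rfl⟩ : ∃ κ', κ = κ' + 1 := ⟨κ - 1, by omega⟩
    exact of_abs hM h
  · exact fun h => to_bound hM h abs_zero 1
  · exact fun h => of_abs hM (κ := 0) h
  · intro i d κ hκ R hR h h'
    obtain ⟨κ, rfl⟩ : ∃ κ', κ = κ' + 1 := ⟨κ - 1, by omega⟩
    rcases hR with rfl | rfl
    · exact of_id hM h h'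
    · exact of_neg hM h h'

end Pool.Agent.Results.MP_0b9e0b_ag.ErrorTerms
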