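import Pool.Agent.Helper7.AF.BB

/-!
# The conjecture of Beilinson and Bloch in characteristic `p` is decided by one ample field
-/

set_option autoImplicit false

namespace Pool.Agent.Results.MP_0b9e0b_ag.OneAmpleField

open Cardinal Pool.Agent.Helper7.AF

/-- Let `ℓ ≠ p` be primes and let `S^{i,j}(F)` be the space of the generic Tate classes over a field
`F` of characteristic `p`: the direct limit, over the smooth models `U` over the field with `p`
elements of the finitely generated subfields of `F`, of the generalised eigenspaces of the
Frobenius on `Hⁱ(Ū, ℚ_ℓ(j))` for the eigenvalue `1`.

Let `K` be an ample (large) field of characteristic `p` (`K` is existentially closed in `K((t))`;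
for example a pseudo algebraically closed or Henselian field) of infinite transcendence degree `κ`
over the field with `p` elements, and let `L` be any field containing `K`. Then
(`TateData.Decides`):

1. the following are equivalent: the conjecture of Beilinson and Bloch in codimension one for all
   smooth projective varieties over all global function fields of characteristic `p` (ranks of
   abelian varieties); the conjecture of Tate for divisors on smooth projective varieties over
   finite fields of characteristic `p`; `S^{2,1}(F) = 0` for all fields `F` of characteristic `p`;
   `S^{2,1}(L) = 0`; the dimension of `S^{2,1}(L)` is less than `κ`;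
2. the following are equivalent: the conjecture of Beilinson and Bloch in all codimensions for all
   smooth projective varieties over all global function fields of characteristic `p`, and the
   linear independence over `ℚ_ℓ` of the classes of cycles over finite fields which are independent
   over `ℚ`; the conjectures of Tate and Beilinson for all smooth projective varieties over finite
   fields of characteristic `p`; `S^{i,j}(F) = 0` for all fields `F` of characteristic `p` and all
   `i > j`; `S^{i,j}(L) = 0` for all `i > j`; the dimensions of `S^{2c,c}(L)`, `c ≥ 1`, and of
   `S^{2c-1,c}(L)`, `c ≥ 2`, are less than `κ`; for all `d ≥ 1` there are arbitrarily large `n`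
   such that the dimension of `S^{n+d,n}(L)` is less than `κ`;
3. for all `i > j` the following are equivalent: `S^{i,j}(F) = 0` for all fields `F` of
   characteristic `p`; `S^{i,j}(L) = 0`; the dimension of `S^{i,j}(L)` is less than `κ`.

The same holds, with the cardinality of `K` in place of `κ`, if `K` is a field of characteristic
`p` which is complete with respect to a nontrivial absolute value, and if `K = k((t))` for a field
`k` of characteristic `p`, such as the field with `p` elements. -/
theorem result (p : ℕ) [Fact p.Prime] (Λ : Type) [Field Λ] [Algebra ℚ Λ] (M : TateTheory p Λ) :
    (∀ (K L : Type) [Field K] [Algebra (ZMod p) K] [Field L] [Algebra K L], Ample K →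
      ℵ₀ ≤ Algebra.trdeg (ZMod p) K → M.Decides p L (Algebra.trdeg (ZMod p) K)) ∧
    (∀ (K L : Type) [NontriviallyNormedField K] [CompleteSpace K] [CharP K p] [Field L]
      [Algebra K L], M.Decides p L #K) ∧
    ∀ (k L : Type) [Field k] [CharP k p] [Field L] [Algebra (LaurentSeries k) L],
      M.Decides p L #(LaurentSeries k) :=
  ⟨fun K L _ _ _ _ hK hκ => M.decides_ample K L hK hκ,
    fun K L _ _ _ _ _ => M.decides_complete K L,
    fun k L _ _ _ _ => M.decides_laurent k L⟩

end Pool.Agent.Results.MP_0b9e0b_ag.OneAmpleField
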