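import Pool.Agent.Helper24.KD.Base

/-!
# The conjecture of Beilinson and Bloch and smooth unions of two affine spaces

Let `k` be a number field. For a separated scheme `X` of finite type over `k` let `W(X)` be its weight
complex with compact supports (Gillet, Soulé), a bounded complex of Chow motives, well defined up to
homotopy. The conjecture of Beilinson and Bloch for a smooth projective variety `X` in codimension `i`
(`Conj i X`) says that `L(H^(2i-1)(X), s)` has a meromorphic continuation along the real axis to
`s = i` and that its order at `s = i` is the dimension of `CH^i(X)_0`. The numerical formula with index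
`n` for an arbitrary `X` (`Numerical n X`) is the Euler characteristic of this statement for the terms
of the complex `W(X)`: the spaces `H^j(CH^n(W(X))_0)` have finite dimension, and the alternating
product of the `L`-functions of the terms has a meromorphic continuation whose order at `s = n` is
`∑ (-1)^j dim H^j(CH^n(W(X))_0)`. For smooth projective `X` it is the conjecture in codimension `n`.

For a polynomial `F(x_1, …, x_r)` let `S_F : t ^ 2 - t = y F(x)` be the double cover of the affine space
of dimension `r + 1` (`dblS F`), and let `V_F : F = 0` be the hypersurface (`hyper F`), which can be very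
singular.

**Theorem.** (1) `S_F` is smooth and the union of two open subschemes which are affine spaces of
dimension `r + 1`. The numerical formula with index `n + 1` for `S_F` is true if and only if the formula
with index `n` for `V_F` is true.

(2) Let `i` and `d` be given. The conjecture of Beilinson and Bloch in codimension `i` is true for all
smooth projective varieties of dimension at most `d` over all number fields if and only if the
numerical formula with index `i + 1` is true for all `S_F`, `F ∈ ℚ[x_1, …, x_(d+1)]`. The same with a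
fixed number field `k` and `F ∈ k[x_1, …, x_(d+1)]`. For `i = d = 1`: the rank part of the Birch and
Swinnerton-Dyer conjecture for the Jacobians of all smooth projective curves is equivalent to the
numerical formula with index `2` for the threefolds `t ^ 2 - t = y F(x_1, x_2)`.

(3) The conjecture for all number fields, varieties and codimensions is equivalent to the numerical
formula for the smooth affine schemes over `ℚ` which are unions of two open affine spaces.
-/

set_option autoImplicit false
set_option linter.checkUnivs false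

open CategoryTheory Limits AlgebraicGeometry Pool.Agent.Y116.UV Pool.Agent.Q282.UM
  Pool.Agent.Q282.UK Pool.Agent.Helper24.KD Pool.Agent.Helper62.DB

open Pool.Agent.Helper24.KZ hiding fL fL_mult ob_iff holds_iff euler_germ fL_zpow

universe v u

namespace Pool.Agent.Results.MP_0b9e0b_ag.OneCodimensionOneDimension

/-- The double cover `t ^ 2 - t = y F` over `k`, `F` in the polynomial ring `B`. -/
noncomputable def dblS {k B : Type} [Field k] [CommRing B] [Algebra k B] (F : B) : Sch k :=
  aff k (Db F)

/-- The hypersurface `F = 0` over `k`. -/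
noncomputable def hyper {k B : Type} [Field k] [CommRing B] [Algebra k B] (F : B) : Sch k :=
  aff k (B ⧸ Ideal.span {F})

/-- `X` is the union of two open subschemes which are isomorphic to the affine space of dimension
`N`. -/
def TwoSpaces {k : Type} [Field k] (N : ℕ) (X : Sch k) : Prop :=
  ∃ j₁ j₂ : aff k (MvPolynomial (Fin N) k) ⟶ X, IsOpenImmersion j₁.left ∧
    IsOpenImmersion j₂.left ∧ Set.range j₁.left ∪ Set.range j₂.left = Set.univ

/-- The category `C` of Chow motives over `k`, with the motives `h(X)`, the Tate twists, the weight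
complexes `W(X)`, the groups of homologically trivial cycles and the Euler factors (`MotivesL`). -/
structure Mot (k : Type) [Field k] where
  C : Type u
  [cat : Category.{v} C]
  [pre : Preadditive C]
  [zero : HasZeroObject C]
  [bin : HasBinaryBiproducts C]
  [fin : HasFiniteBiproducts C]
  D : MotivesL k C

attribute [instance] Mot.cat Mot.pre Mot.zero Mot.bin Mot.fin

section

variable {k : Type} [Field k] (M : Mot.{v, u} k)

/-- The motive `h(X)(i)`. -/
noncomputable def Mot.motive (i : ℤ) (X : Sch k) : M.C := (M.D.tw i).obj (M.D.h X)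

/-- The conjecture of Beilinson and Bloch for the smooth projective scheme `X` in codimension `i`, with
the meromorphic continuation: `L(H^(2i-1)(X), s + i)` has a meromorphic continuation to a neighbourhood
of `[0, ∞)`, and its order at `s = 0` is the dimension of `CH^i(X)_0`, which is finite. -/
def Conj (i : ℤ) (X : Sch k) : Prop := BB M.D (M.motive i X)

/-- The numerical formula for the twist `W(X)(n)` of the weight complex of `X`. -/
def Numerical (n : ℤ) (X : Sch k) : Prop := Formula M.D (onHK (M.D.tw n) (M.D.W X))

end

/-- The known properties of the Chow motives over all number fields.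

* `euler`: the Euler factors of sums, and the convergence of the Euler products;
* `weight`: the weight complexes;
* `out`: `CH^n(X)_0 = 0` and `H^(2n-1)(X) = 0` for `n ≤ 0` and for `n > dim X`;
* `restrict`: a smooth projective scheme over `k` is a smooth projective scheme over `ℚ`, with the same
  cycles and the same `L`-functions. -/
structure Known (M : ∀ (k : Type) [Field k] [NumberField k], Mot.{v, u} k) : Prop where
  euler : ∀ (k : Type) [Field k] [NumberField k], IsEuler (M k).D
  weight : ∀ (k : Type) [Field k] [NumberField k], IsWeightComplex (M k).D.toWeights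
  out : ∀ (k : Type) [Field k] [NumberField k] (X : Sch k), IsSmoothProjective X →
    ∀ N : ℕ, topologicalKrullDim X.left ≤ N → ∀ n : ℤ, (n ≤ 0 ∨ N < n) →
      IsZero ((M k).D.cyc.obj ((M k).motive n X)) ∧ ∀ v, (M k).D.P v ((M k).motive n X) = 1
  restrict : ∀ (k : Type) [Field k] [NumberField k] (X : Sch k), IsSmoothProjective X →
    ∃ X' : Sch ℚ, IsSmoothProjective X' ∧
      topologicalKrullDim X'.left = topologicalKrullDim X.left ∧ ∀ n : ℤ,
        Nonempty ((M k).D.cyc.obj ((M k).motive n X) ≃ₗ[ℚ] (M ℚ).D.cyc.obj ((M ℚ).motive n X')) ∧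
        ∃ σ : ℝ, ∀ s : ℂ, σ < s.re →
          (M k).D.L ((M k).motive n X) s = (M ℚ).D.L ((M ℚ).motive n X') s

section geometry

variable {k B : Type} [Field k] [CommRing B] [Algebra k B] (F : B) {m : ℕ}
  (e : Polynomial B ≃ₐ[k] MvPolynomial (Fin m) k)

include e

lemma two_spaces : TwoSpaces m (dblS (k := k) F) := two_spaces0 F e

lemma smooth_dblS : Smooth (dblS (k := k) F).hom := smooth0 F e

end geometry

section

variable {M : ∀ (k : Type) [Field k] [NumberField k], Mot.{v, u} k} (hM : Known M)

include hM

variable (k : Type) [Field k] [NumberField k]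

lemma out_ob (X : Sch k) (hX : IsSmoothProjective X) {N : ℕ}
    (hN : topologicalKrullDim X.left ≤ N) (n : ℤ) (hn : n ≤ 0 ∨ N < n) :
    Ob (M k).D.cyc (fL (hM.euler k)) Gam (((M k).D.tw n).obj ((M k).D.h X)) := by
  rw [ob_iff]
  obtain ⟨h1, h2⟩ := hM.out k X hX N hN n hn
  have h3 : Subsingleton ((M k).D.cyc.obj ((M k).motive n X)) :=
    ModuleCat.subsingleton_of_isZero h1
  refine ⟨fun _ => 1, ⟨⟨0, fun s _ => ?_⟩, fun x _ => MeromorphicAt.const 1 _⟩, ?_, ?_⟩
  · have h4 : ∀ v, (M k).D.P v (((M k).D.tw n).obj ((M k).D.h X)) = 1 := h2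
    unfold MotivesL.L
    simp only [h4, Polynomial.eval_one, inv_one, tprod_one]
  · have : Subsingleton ((M k).D.cyc.obj (((M k).D.tw n).obj ((M k).D.h X))) := h3
    infer_instance
  · have : Subsingleton ((M k).D.cyc.obj (((M k).D.tw n).obj ((M k).D.h X))) := h3
    rw [meromorphicOrderAt_const, Module.finrank_zero_of_subsingleton]
    simp

lemma zero_ob (X : Sch k) (hX : IsSmoothProjective X)
    (hN : topologicalKrullDim X.left ≤ (0 : ℕ)) (n : ℤ) :
    Ob (M k).D.cyc (fL (hM.euler k)) Gam (((M k).D.tw n).obj ((M k).D.h X)) :=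
  out_ob hM k X hX hN n (by omega)

lemma numerical_iff (n : ℤ) (X : Sch k) : Numerical (M k) n X ↔
    At (M k).D.cyc (fL (hM.euler k)) Gam (M k).D.toWeights n X :=
  (holds_iff (hM.euler k) _).symm

lemma conj_iff (n : ℤ) (X : Sch k) : Conj (M k) n X ↔
    Ob (M k).D.cyc (fL (hM.euler k)) Gam (((M k).D.tw n).obj ((M k).D.h X)) :=
  (ob_iff (hM.euler k) _).symm

/-- One double cover and one hypersurface. -/
lemma dbl_numerical {r : ℕ} (F : MvPolynomial (Fin r) k) (n : ℤ) :
    Numerical (M k) (n + 1) (dblS F) ↔ Numerical (M k) n (hyper F) := by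
  rw [numerical_iff hM, numerical_iff hM]
  exact dbl_hyp (fL_mult (hM.euler k)) (hM.weight k) (zero_ob hM k) n F

/-- One codimension and one dimension. -/
theorem dim_numerical (i : ℤ) (d : ℕ) :
    (∀ X : Sch k, IsSmoothProjective X → topologicalKrullDim X.left ≤ d → Conj (M k) i X) ↔
      ∀ F : MvPolynomial (Fin (d + 1)) k, Numerical (M k) (i + 1) (dblS F) := by
  have h := dim_at (fL_mult (hM.euler k)) (hM.weight k) (zero_ob hM k) i d
  simp only [numerical_iff hM, conj_iff hM]
  exact h

/-- The restriction of scalars. -/
lemma restrict_conj (X : Sch k) (hX : IsSmoothProjective X) : ∃ X' : Sch ℚ,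
    IsSmoothProjective X' ∧ topologicalKrullDim X'.left = topologicalKrullDim X.left ∧
      ∀ i : ℤ, (Conj (M ℚ) i X' → Conj (M k) i X) := by
  obtain ⟨X', h1, h2, h3⟩ := hM.restrict k X hX
  refine ⟨X', h1, h2, fun i => ?_⟩
  obtain ⟨⟨e⟩, σ, hσ⟩ := h3 i
  rintro ⟨F, ⟨⟨τ, h4⟩, h5⟩, h6, h7⟩
  refine ⟨F, ⟨⟨max σ τ, fun s hs => ?_⟩, h5⟩, Module.Finite.equiv e.symm, ?_⟩
  · rw [h4 s (lt_of_le_of_lt (le_max_right _ _) hs), hσ s (lt_of_le_of_lt (le_max_left _ _) hs)]
  · rw [h7, e.finrank_eq]

/-- All schemes of finite type. -/
lemma ft_all {n : ℤ} (h : ∀ X : Sch k, IsSmoothProjective X → Conj (M k) n X) (X : Sch k)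
    (hX : FT True X) : Numerical (M k) n X := by
  have hc := at_cls (F := (M k).D.cyc) (Γ := Gam) (fL_mult (hM.euler k)) (hM.weight k) n
  rw [numerical_iff hM]
  refine of_affine' (P := fun X => At (M k).D.cyc (fL (hM.euler k)) Gam (M k).D.toWeights n X)
    hc.iso hc.total (fun A _ _ _ => ?_) X hX
  obtain ⟨N, f, hf⟩ := Algebra.FiniteType.iff_quotient_mvPolynomial''.mp
    (inferInstance : Algebra.FiniteType k A)
  refine gen (fL_mult (hM.euler k)) (hM.weight k) (N := N)
    (fun Y hY _ => (conj_iff hM k n Y).mp (h Y hY)) (aff k A) (ft_aff True) ?_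
  rw [Pool.Agent.Z125.UN.topDim_aff]
  refine (ringKrullDim_le_of_surjective f.toRingHom hf).trans ?_
  rw [MvPolynomial.ringKrullDim_of_isNoetherianRing, ringKrullDim_eq_zero_of_field, zero_add,
    Nat.card_eq_fintype_card, Fintype.card_fin]

end

/-- The conjecture of Beilinson and Bloch; the numerical formula for all separated schemes of finite
type over number fields; for the smooth affine schemes over `ℚ` which are unions of two open affine
spaces; for the double covers `t ^ 2 - t = y F(x)` over `ℚ`. -/
def Forms (M : ∀ (k : Type) [Field k] [NumberField k], Mot.{v, u} k) : List Prop :=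
  [∀ (k : Type) [Field k] [NumberField k] (X : Sch k), IsSmoothProjective X →
      ∀ i : ℤ, Conj (M k) i X,
    ∀ (k : Type) [Field k] [NumberField k] (X : Sch k), FT True X →
      ∀ n : ℤ, Numerical (M k) n X,
    ∀ (A : Type) [CommRing A] [Algebra ℚ A], Algebra.FiniteType ℚ A → Smooth (aff ℚ A).hom →
      (∃ N, TwoSpaces N (aff ℚ A)) → ∀ n : ℤ, Numerical (M ℚ) n (aff ℚ A),
    ∀ (r : ℕ) (F : MvPolynomial (Fin r) ℚ) (n : ℤ), Numerical (M ℚ) n (dblS F)]

theorem forms_tfae {M : ∀ (k : Type) [Field k] [NumberField k], Mot.{v, u} k} (hM : Known M) :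
    (Forms M).TFAE := by
  unfold Forms
  have hres : (∀ (i : ℤ) (X : Sch ℚ), IsSmoothProjective X → Conj (M ℚ) i X) →
      ∀ (k : Type) [Field k] [NumberField k] (X : Sch k), IsSmoothProjective X →
      ∀ i : ℤ, Conj (M k) i X := by
    intro h k _ _ X hX i
    obtain ⟨X', h1, _, h3⟩ := restrict_conj hM k X hX
    exact h3 i (h i X' h1)
  tfae_have 1 → 2 := fun h k _ _ X hX n => ft_all hM k (fun Y hY => h k Y hY n) X hX
  tfae_have 2 → 3 := fun h A _ _ hA _ _ n => h ℚ (aff ℚ A) (ft_aff True) n
  tfae_have 3 → 4 := fun h N F n => h _ inferInstance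
    (smooth_dblS F (MvPolynomial.finSuccEquiv ℚ N).symm)
    ⟨_, two_spaces F (MvPolynomial.finSuccEquiv ℚ N).symm⟩ n
  tfae_have 4 → 1 := fun h => hres fun i X hX => by
    rw [conj_iff hM]
    refine to_ob (fL_mult (hM.euler ℚ)) (hM.weight ℚ) hX ?_
    exact all_of_dbl (fL_mult (hM.euler ℚ)) (hM.weight ℚ) (zero_ob hM ℚ) i
      (fun r g => (numerical_iff hM ℚ _ _).mp (h r g (i + 1))) X (ft_projective hX)
  tfae_finish

/-- **The conjecture of Beilinson and Bloch, one codimension and one dimension at a time.** See the
explanations above. -/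
theorem result (M : ∀ (k : Type) [Field k] [NumberField k], Mot.{v, u} k) (hM : Known M) :
    -- (1) the double covers are smooth, and unions of two affine spaces; one of them is as hard as
    -- one hypersurface
    (∀ (k : Type) [Field k] [NumberField k] (r : ℕ) (F : MvPolynomial (Fin r) k),
      Smooth (dblS (k := k) F).hom ∧ TwoSpaces (r + 1) (dblS (k := k) F) ∧
        ∀ n : ℤ, Numerical (M k) (n + 1) (dblS F) ↔ Numerical (M k) n (hyper F)) ∧
    -- (2) one codimension, one dimension
    (∀ (i : ℤ) (d : ℕ),
      ((∀ (k : Type) [Field k] [NumberField k] (X : Sch k), IsSmoothProjective X →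
          topologicalKrullDim X.left ≤ d → Conj (M k) i X) ↔
        ∀ F : MvPolynomial (Fin (d + 1)) ℚ, Numerical (M ℚ) (i + 1) (dblS F)) ∧
      ∀ (k : Type) [Field k] [NumberField k],
        ((∀ X : Sch k, IsSmoothProjective X → topologicalKrullDim X.left ≤ d → Conj (M k) i X) ↔
          ∀ F : MvPolynomial (Fin (d + 1)) k, Numerical (M k) (i + 1) (dblS F))) ∧
    -- (3) the conjecture
    (Forms M).TFAE := by
  refine ⟨fun k _ _ r F => ⟨smooth_dblS F (MvPolynomial.finSuccEquiv k r).symm,
      two_spaces F (MvPolynomial.finSuccEquiv k r).symm,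
      fun n => dbl_numerical hM k F n⟩,
    fun i d => ⟨?_, fun k _ _ => dim_numerical hM k i d⟩, forms_tfae hM⟩
  rw [← dim_numerical hM ℚ i d]
  constructor
  · exact fun h => h ℚ
  · intro h k _ _ X hX hd
    obtain ⟨X', hX', e1, e2⟩ := restrict_conj hM k X hX
    exact e2 i (h X' hX' (e1 ▸ hd))

end Pool.Agent.Results.MP_0b9e0b_ag.OneCodimensionOneDimension
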