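import Pool.Agent.Helper44.OF.Main

/-!
# The conjecture of Beilinson and Bloch over one rational function field decides all isotrivial cases

Let `F` be the field with `q = p ^ a` elements, let `B` be one curve over `F` with `H^1(B) ≠ 0`,
with some automorphisms `τ g`, and let `L = F(B) ^ τ`. For example `B` is an elliptic or
hyperelliptic curve, `τ` its involution, and `L = F(t)`. The varieties `Z`, `B'` run over any class of
smooth projective varieties over `F` closed under products and containing `B`, for example all.

1. For each `Z`: the conjecture of Beilinson and Bloch for the twist of `Z × B` over `L` by the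
   covering `Spec F(B) → Spec L` implies that rational and numerical equivalence coincide on `Z` and
   that `Z` satisfies the strong Tate conjecture, in all codimensions.
2. The following are equivalent: the conjecture of Beilinson and Bloch (the rank formula, and the
   Abel-Jacobi map is onto) for these twists, over the one field `L`; rational equivalence is
   numerical equivalence, and the strong Tate conjecture holds, for all `Z` over `F`; the conjecture
   of Beilinson and Bloch for all constant and isotrivial varieties over all function fields
   `F(B') ^ G'` (with model `(Z × B') / G'`), in all codimensions.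
3. Suppose that `H^1(B) ^ τ = 0`, so `L` has genus zero, and that homological and numerical
   equivalence coincide for all `Z`. The following are equivalent: the rank formula over the one
   field `L`, for all constant varieties `Z` and all twists of `Z × B`; the second condition of
   part 2; the rank formula for all constant and isotrivial varieties over all function fields, in
   all codimensions.

The proof: let `δ` be the projector to `H^1(B)`, a divisor class on `B × B`. For a Tate class `x` on
`Z` the class `x × δ` on `Z × B × B` is invariant and of the type considered over `L`, and its product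
with `δ` has the image `- dim H^1(B) x` in the cohomology of `Z`.
-/

open Pool.Agent.H914 Pool.Agent.H914.VarClass.Obj Pool.Agent.W492.BB Pool.Agent.TH133
  Pool.Agent.Q56.CP Pool.Agent.Q56.CU Pool.Agent.Helper44.OF CategoryTheory

universe u v w

namespace Pool.Agent.Results.MP_0b9e0b_ag.OneRationalFunctionField

/-- **The conjecture of Beilinson and Bloch over one rational function field decides all isotrivial
cases.** -/
theorem result {k : Type u} [Field k] {𝒱 : VarClass k} (C : TheoryData.{u, v, 0} 𝒱 ℚ)
    [IsChowProj C] {K : Type w} [Field K] [CharZero K] [IsAlgClosed K]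
    (H : WeilTheoryData.{u, v, w} C K) [IsWeilProj H] (hH : Anticommute H) (p a : ℕ)
    [Fact p.Prime] (ha : 0 < a) (Fr : ∀ X : 𝒱.Obj, X ⟶ X) (hFr : IsFrobTheory H Fr p a)
    (B : 𝒱.Obj) (G : Type) (τ : G → (B ⟶ B)) (β : C.A B) (hB : IsCover H τ β) :
    (∀ Z, BeilinsonBloch H Fr (p ^ a) (C.up (snd (Z.prod B) B) β) (twist Z τ) →
      RatNum H Z ∧ StrongTateFor H Fr (p ^ a) Z) ∧
    List.TFAE [
      ∀ Z, BeilinsonBloch H Fr (p ^ a) (C.up (snd (Z.prod B) B) β) (twist Z τ),
      ∀ Z, RatNum H Z ∧ StrongTateFor H Fr (p ^ a) Z,
      ∀ Z B', B'.dim = 1 → ∀ (G' : Type) (ρ : G' → (Z.prod B' ⟶ Z.prod B')) (β' : C.A B'),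
        C.Deg 1 β' → BeilinsonBloch H Fr (p ^ a) (C.up (snd Z B') β') ρ] ∧
    (NoInvariants H τ → (∀ Z, HomNum H Z) → List.TFAE [
      ∀ Z, RankFormula H Fr (p ^ a) (C.up (snd Z B) β) (constant Z τ) ∧
        RankFormula H Fr (p ^ a) (C.up (snd (Z.prod B) B) β) (twist Z τ),
      ∀ Z, RatNum H Z ∧ StrongTateFor H Fr (p ^ a) Z,
      ∀ Z B', B'.dim = 1 → ∀ (G' : Type) (ρ : G' → (Z.prod B' ⟶ Z.prod B')) (β' : C.A B'),
        C.Deg 1 β' → RankFormula H Fr (p ^ a) (C.up (snd Z B') β') ρ]) :=
  main hH ha hFr hB

end Pool.Agent.Results.MP_0b9e0b_ag.OneRationalFunctionField
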